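import Pool.Agent.H86.RG.Targets2

/-! Cutoff functions (row E6CTF of reg_modules). -/

set_option autoImplicit false

namespace Pool.Agent.H68.RG6

open MeasureTheory Metric Set Filter Topology Pool.Agent.H87.SN Pool.Agent.H86.RG
open scoped ContDiff RealInnerProductSpace ENNReal

theorem pf_CTF : T_CTF := by
  intro n
  obtain ⟨η₀, hin, hout⟩ : ∃ η₀ : ContDiffBump (0 : E n), η₀.rIn = 1 ∧ η₀.rOut = 3 / 2 :=
    ⟨⟨1, 3 / 2, one_pos, by norm_num⟩, rfl, rfl⟩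
  have hsm : ContDiff ℝ ∞ (η₀ : E n → ℝ) := η₀.contDiff
  have hcf : Continuous (fderiv ℝ (η₀ : E n → ℝ)) := hsm.continuous_fderiv (by simp)
  obtain ⟨C, hC⟩ := (η₀.hasCompactSupport.fderiv (𝕜 := ℝ)).exists_bound_of_continuous hcf
  refine ⟨C, fun x₀ r hr => ⟨fun x => η₀ (r⁻¹ • (x - x₀)), ?_, ?_, ?_, ?_, ?_⟩⟩
  · exact hsm.comp (g := (η₀ : E n → ℝ)) (f := fun x : E n => r⁻¹ • (x - x₀)) (by fun_prop)
  · apply closure_minimal _ isClosed_closedBall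
    intro x hx
    have h1 : r⁻¹ • (x - x₀) ∈ Function.support (η₀ : E n → ℝ) := hx
    rw [η₀.support_eq, mem_ball_zero_iff, hout, norm_smul, norm_inv, Real.norm_eq_abs,
      abs_of_pos hr, inv_mul_lt_iff₀ hr] at h1
    rw [mem_closedBall, dist_eq_norm]
    linarith
  · intro x
    exact ⟨η₀.nonneg, η₀.le_one⟩
  · intro x hx
    apply η₀.one_of_mem_closedBall
    rw [mem_closedBall_zero_iff, hin, norm_smul, norm_inv, Real.norm_eq_abs, abs_of_pos hr,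
      inv_mul_le_iff₀ hr, mul_one, ← dist_eq_norm]
    exact hx
  · intro i x
    have hd : HasFDerivAt (fun x => η₀ (r⁻¹ • (x - x₀)))
        ((fderiv ℝ (η₀ : E n → ℝ) (r⁻¹ • (x - x₀))).comp
          (r⁻¹ • ContinuousLinearMap.id ℝ (E n))) x := by
      have h1 : HasFDerivAt (fun x : E n => r⁻¹ • (x - x₀)) (r⁻¹ • ContinuousLinearMap.id ℝ (E n)) x :=
        ((hasFDerivAt_id x).sub_const x₀).const_smul r⁻¹
      have h2 : HasFDerivAt (η₀ : E n → ℝ) (fderiv ℝ (η₀ : E n → ℝ) (r⁻¹ • (x - x₀)))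
          (r⁻¹ • (x - x₀)) := ((hsm.differentiable (by simp)) _).hasFDerivAt
      exact HasFDerivAt.comp (g := (η₀ : E n → ℝ)) x h2 h1
    unfold dd
    rw [hd.fderiv]
    have h1 : ((fderiv ℝ (η₀ : E n → ℝ) (r⁻¹ • (x - x₀))).comp
        (r⁻¹ • ContinuousLinearMap.id ℝ (E n))) (bv i) =
        r⁻¹ * fderiv ℝ (η₀ : E n → ℝ) (r⁻¹ • (x - x₀)) (bv i) := by
      simp
    rw [h1, abs_mul, abs_of_pos (inv_pos.mpr hr), div_eq_inv_mul]
    have hb : ‖(bv i : E n)‖ = 1 := by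
      simp [bv]
    have h2 : |fderiv ℝ (η₀ : E n → ℝ) (r⁻¹ • (x - x₀)) (bv i)| ≤ C := by
      have h3 := (fderiv ℝ (η₀ : E n → ℝ) (r⁻¹ • (x - x₀))).le_opNorm (bv i)
      rw [hb, mul_one, Real.norm_eq_abs] at h3
      exact h3.trans (hC _)
    exact mul_le_mul_of_nonneg_left h2 (inv_pos.mpr hr).le

end Pool.Agent.H68.RG6
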